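import Pool.Agent.K4H74.RSA.Slope

/-!
# Generating functions for `(k + 1) u_{k+r} = 2 (u_0 + ... + u_k) + g_k`
-/

namespace Pool.Agent.K4H74.RSA

open Finset Filter Topology Set

/-- `exp (2 (x + x^2/2 + ... + x^(r-1)/(r-1)))`. -/
noncomputable def EE (r : ℕ) (x : ℝ) : ℝ := Real.exp (2 * ∑ k ∈ Finset.Ico 1 r, x ^ k / k)

lemma EE_pos (r : ℕ) (x : ℝ) : 0 < EE r x := Real.exp_pos _

lemma EE_deriv (r : ℕ) (x : ℝ) :
    HasDerivAt (EE r) (EE r x * (2 * ∑ k ∈ Finset.Ico 1 r, x ^ (k - 1))) x := by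
  refine HasDerivAt.exp (HasDerivAt.const_mul 2 ?_)
  refine HasDerivAt.fun_sum fun k hk => ?_
  rw [Finset.mem_Ico] at hk
  have h := (hasDerivAt_pow k x).div_const (k : ℝ)
  refine h.congr_deriv ?_
  have : (k : ℝ) ≠ 0 := by
    have : 0 < k := by omega
    positivity
  field_simp

lemma EE_cont (r : ℕ) : Continuous (EE r) :=
  continuous_iff_continuousAt.2 fun x => (EE_deriv r x).continuousAt

lemma geo (r : ℕ) (x : ℝ) :
    (1 - x) * ∑ k ∈ Finset.Ico 1 r, x ^ (k - 1) = 1 - x ^ (r - 1) := by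
  rw [Finset.sum_Ico_eq_sum_range]
  have : ∀ i ∈ Finset.range (r - 1), x ^ (1 + i - 1) = x ^ i := by
    intro i _
    congr 1
    omega
  rw [Finset.sum_congr rfl this, mul_neg_geom_sum]

/-- At most quadratic growth. -/
def Gr (u : ℕ → ℝ) : Prop := ∃ B : ℝ, 0 ≤ B ∧ ∀ n, |u n| ≤ B * ((n : ℝ) + 1) ^ 2

lemma summable_poly (k : ℕ) {ρ : ℝ} (h0 : 0 ≤ ρ) (h1 : ρ < 1) :
    Summable (fun n : ℕ => ((n : ℝ) + 1) ^ k * ρ ^ n) := by
  rcases h0.eq_or_lt with h | h
  · rw [← h]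
    refine summable_of_ne_finset_zero (s := {0}) fun n hn => ?_
    rw [Finset.mem_singleton] at hn
    rw [zero_pow hn, mul_zero]
  · have hs := summable_pow_mul_geometric_of_norm_lt_one (R := ℝ) k (r := ρ)
      (by rw [Real.norm_eq_abs, abs_of_pos h]; exact h1)
    have hs' := (summable_nat_add_iff 1).2 hs
    have := hs'.mul_left ρ⁻¹
    refine this.congr fun n => ?_
    push_cast
    rw [pow_succ]
    field_simp

lemma Gr.summable {u : ℕ → ℝ} (hu : Gr u) {x : ℝ} (hx : |x| < 1) :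
    Summable (fun n => u n * x ^ n) := by
  obtain ⟨B, hB, h⟩ := hu
  refine Summable.of_norm_bounded ((summable_poly 2 (abs_nonneg x) hx).mul_left B) fun n => ?_
  rw [Real.norm_eq_abs, abs_mul, abs_pow, ← mul_assoc]
  exact mul_le_mul_of_nonneg_right (h n) (by positivity)

lemma Gr.shift {u : ℕ → ℝ} (hu : Gr u) (r : ℕ) : Gr (fun n => u (n + r)) := by
  obtain ⟨B, hB, h⟩ := hu
  refine ⟨B * ((r : ℝ) + 1) ^ 2, by positivity, fun n => ?_⟩
  refine (h (n + r)).trans ?_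
  rw [mul_assoc, ← mul_pow]
  refine mul_le_mul_of_nonneg_left (pow_le_pow_left₀ (by positivity) ?_ 2) hB
  push_cast
  nlinarith [mul_nonneg (Nat.cast_nonneg (α := ℝ) r) (Nat.cast_nonneg (α := ℝ) n)]

lemma deriv_series {h : ℕ → ℝ} (hh : Gr h) {x : ℝ} (hx : |x| < 1) :
    HasDerivAt (fun y => ∑' n : ℕ, h n * y ^ (n + 1)) (∑' n : ℕ, ((n : ℝ) + 1) * h n * x ^ n) x := by
  obtain ⟨ρ, h1, h2⟩ := exists_between hx
  have hρ0 : 0 ≤ ρ := (abs_nonneg x).trans h1.le
  obtain ⟨B, hB, hb⟩ := hh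
  have hs : Summable (fun n : ℕ => B * (((n : ℝ) + 1) ^ 3 * ρ ^ n)) :=
    (summable_poly 3 hρ0 h2).mul_left B
  refine hasDerivAt_tsum_of_isPreconnected (t := Set.Ioo (-ρ) ρ) (y₀ := 0)
    (g := fun n y => h n * y ^ (n + 1)) (g' := fun n y => ((n : ℝ) + 1) * h n * y ^ n)
    hs isOpen_Ioo isPreconnected_Ioo ?_ ?_ ?_ ?_ ?_
  · intro n y _
    have := (hasDerivAt_pow (n + 1) y).const_mul (h n)
    refine this.congr_deriv ?_
    push_cast
    ring
  · intro n y hy
    have hy' : |y| ≤ ρ := abs_le.2 ⟨hy.1.le, hy.2.le⟩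
    rw [Real.norm_eq_abs, abs_mul, abs_mul, abs_pow,
      abs_of_nonneg (by positivity : (0 : ℝ) ≤ (n : ℝ) + 1)]
    calc ((n : ℝ) + 1) * |h n| * |y| ^ n ≤ ((n : ℝ) + 1) * (B * ((n : ℝ) + 1) ^ 2) * ρ ^ n := by
          refine mul_le_mul ?_ (pow_le_pow_left₀ (abs_nonneg _) hy' n) (by positivity)
            (by positivity)
          exact mul_le_mul_of_nonneg_left (hb n) (by positivity)
      _ = B * (((n : ℝ) + 1) ^ 3 * ρ ^ n) := by ring
  · constructor
    · have := lt_of_le_of_lt (abs_nonneg x) h1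
      linarith
    · exact lt_of_le_of_lt (abs_nonneg x) h1
  · refine summable_of_ne_finset_zero (s := ∅) fun n _ => ?_
    show h n * (0 : ℝ) ^ (n + 1) = 0
    rw [pow_succ, mul_zero, mul_zero]
  · exact abs_lt.1 h1

variable {r : ℕ} {u g : ℕ → ℝ} {G : ℝ → ℝ}

theorem closed (hr : 1 ≤ r) (hu : Gr u)
    (hrec : ∀ k : ℕ, ((k : ℝ) + 1) * u (k + r) = 2 * ∑ j ∈ range (k + 1), u j + g k)
    (hG : ∀ x, |x| < 1 → HasSum (fun n => g n * x ^ n) (G x))
    (hGc : ContinuousOn G (Set.Ioo (-1) 1)) {x : ℝ} (hx : |x| < 1) :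
    ∑' n, u n * x ^ n = ∑ n ∈ range r, u n * x ^ n + x ^ (r - 1) *
      ((∫ y in (0 : ℝ)..x, (2 * (1 - y) * EE r y * (∑ n ∈ range r, u n * y ^ n) +
        (1 - y) ^ 2 * EE r y * G y)) / ((1 - x) ^ 2 * EE r x)) := by
  set H : ℝ → ℝ := fun y => ∑' n, u (n + r) * y ^ (n + 1) with hH
  have hsplit : ∀ y : ℝ, |y| < 1 → ∑' n, u n * y ^ n =
      ∑ n ∈ range r, u n * y ^ n + y ^ (r - 1) * H y := by
    intro y hy
    rw [← Summable.sum_add_tsum_nat_add r (hu.summable hy), hH]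
    simp only
    rw [← tsum_mul_left]
    congr 1
    refine tsum_congr fun n => ?_
    rw [show n + r = (r - 1) + (n + 1) by omega, pow_add]
    ring
  have hder : ∀ y : ℝ, |y| < 1 → HasDerivAt H
      (2 * (∑' n, u n * y ^ n) * (1 - y)⁻¹ + G y) y := by
    intro y hy
    refine (deriv_series (hu.shift r) hy).congr_deriv ?_
    have hs1 : Summable (fun n => ‖u n * y ^ n‖) := (hu.summable hy).norm
    have hs2 : Summable (fun n : ℕ => ‖y ^ n‖) := by
      have := (summable_geometric_of_lt_one (abs_nonneg y) hy)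
      simpa [Real.norm_eq_abs, abs_pow] using this
    have hprod := tsum_mul_tsum_eq_tsum_sum_range_of_summable_norm hs1 hs2
    have hps := (summable_norm_sum_mul_range_of_summable_norm hs1 hs2).of_norm
    rw [tsum_geometric_of_norm_lt_one (by rwa [Real.norm_eq_abs])] at hprod
    rw [mul_assoc, hprod, ← (hG y hy).tsum_eq, ← tsum_mul_left,
      ← Summable.tsum_add (hps.mul_left 2) (hG y hy).summable]
    refine tsum_congr fun n => ?_
    rw [hrec n, add_mul, mul_assoc, Finset.sum_mul]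
    congr 2
    refine Finset.sum_congr rfl fun j hj => ?_
    rw [Finset.mem_range] at hj
    rw [mul_assoc, ← pow_add]
    congr 2
    omega
  set A : ℝ → ℝ := fun y => (1 - y) ^ 2 * EE r y with hA
  have hAder : ∀ y : ℝ, HasDerivAt A (-(2 * (1 - y) * y ^ (r - 1) * EE r y)) y := by
    intro y
    have h1 : HasDerivAt (fun y : ℝ => (1 - y) ^ 2) (-(2 * (1 - y))) y := by
      have := ((hasDerivAt_id y).const_sub 1).pow 2
      refine this.congr_deriv ?_
      simp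
    have h2 := h1.mul (EE_deriv r y)
    refine h2.congr_deriv ?_
    have := geo r y
    have e : (1 - y) ^ 2 * (EE r y * (2 * ∑ k ∈ Finset.Ico 1 r, y ^ (k - 1))) =
        2 * (1 - y) * EE r y * ((1 - y) * ∑ k ∈ Finset.Ico 1 r, y ^ (k - 1)) := by ring
    rw [e, this]
    ring
  set F : ℝ → ℝ := fun y => 2 * (1 - y) * EE r y * (∑ n ∈ range r, u n * y ^ n) +
        (1 - y) ^ 2 * EE r y * G y with hF
  have hAH : ∀ y : ℝ, |y| < 1 → HasDerivAt (fun y => A y * H y) (F y) y := by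
    intro y hy
    refine ((hAder y).mul (hder y hy)).congr_deriv ?_
    rw [hsplit y hy, hF, hA]
    have hy1 : (1 - y) ≠ 0 := by
      have := (abs_lt.1 hy).2
      linarith
    simp only
    field_simp
    ring
  have hsub : ∀ y ∈ Set.uIcc 0 x, |y| < 1 := by
    intro y hy
    rw [Set.mem_uIcc] at hy
    have := abs_lt.1 hx
    rw [abs_lt]
    rcases hy with hy | hy
    · constructor <;> linarith [hy.1, hy.2]
    · constructor <;> linarith [hy.1, hy.2]
  have hFc : ContinuousOn F (Set.uIcc 0 x) := by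
    have hG' : ContinuousOn G (Set.uIcc 0 x) := hGc.mono fun y hy => by
      have := abs_lt.1 (hsub y hy)
      exact ⟨this.1, this.2⟩
    have hE := (EE_cont r).continuousOn (s := Set.uIcc 0 x)
    refine ContinuousOn.add (ContinuousOn.mul (ContinuousOn.mul ?_ hE) ?_)
      (ContinuousOn.mul (ContinuousOn.mul ?_ hE) hG')
    · exact Continuous.continuousOn (by fun_prop)
    · exact Continuous.continuousOn (by fun_prop)
    · exact Continuous.continuousOn (by fun_prop)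
  have hftc : ∫ y in (0 : ℝ)..x, F y = A x * H x - A 0 * H 0 :=
    intervalIntegral.integral_eq_sub_of_hasDerivAt (fun y hy => hAH y (hsub y hy))
      hFc.intervalIntegrable
  have hH0 : H 0 = 0 := by
    rw [hH]
    simp
  rw [hH0, mul_zero, sub_zero] at hftc
  rw [hsplit x hx]
  congr 2
  have hx1 : (1 - x) ≠ 0 := by
    have := (abs_lt.1 hx).2
    linarith
  have hAx : (1 - x) ^ 2 * EE r x ≠ 0 := mul_ne_zero (pow_ne_zero _ hx1) (EE_pos r x).ne'
  rw [eq_div_iff hAx]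
  have : (∫ y in (0 : ℝ)..x, (2 * (1 - y) * EE r y * (∑ n ∈ range r, u n * y ^ n) +
        (1 - y) ^ 2 * EE r y * G y)) = ∫ y in (0 : ℝ)..x, F y := rfl
  rw [this, hftc, hA]
  ring

/-- Abelian step: the slope is the limit of `(1 - x)^2 U(x)`. -/
theorem abel {q : ℝ} (hq : Sm (fun n => u n - q * ((n : ℝ) + r))) :
    Tendsto (fun x : ℝ => (1 - x) ^ 2 * ∑' n, u n * x ^ n) (𝓝[<] 1) (𝓝 q) := by
  obtain ⟨C, hC, h⟩ := hq (1 / 2) (by norm_num) (by norm_num)
  have hgeo : Summable (fun n : ℕ => C * (1 / 2 : ℝ) ^ n) :=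
    (summable_geometric_of_lt_one (by norm_num) (by norm_num)).mul_left C
  set K : ℝ := ∑' n : ℕ, C * (1 / 2 : ℝ) ^ n with hK
  have hev : ∀ᶠ x : ℝ in 𝓝[<] 1, 0 < x ∧ x < 1 := by
    have h1 : ∀ᶠ x : ℝ in 𝓝[<] 1, x < 1 := eventually_mem_nhdsWithin
    have h2 : ∀ᶠ x : ℝ in 𝓝[<] 1, 0 < x :=
      eventually_nhdsWithin_of_eventually_nhds (lt_mem_nhds (by norm_num))
    exact h2.and h1
  have hb : ∀ᶠ x : ℝ in 𝓝[<] 1,
      |(1 - x) ^ 2 * ∑' n, u n * x ^ n - q * (x + r * (1 - x))| ≤ (1 - x) ^ 2 * K := by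
    refine hev.mono fun x hx => ?_
    have hx1 : ‖x‖ < 1 := by rw [Real.norm_eq_abs, abs_of_pos hx.1]; exact hx.2
    have s1 := hasSum_coe_mul_geometric_of_norm_lt_one hx1
    have s2 := hasSum_geometric_of_norm_lt_one hx1
    have s3 : Summable (fun n => (u n - q * ((n : ℝ) + r)) * x ^ n) := by
      refine Summable.of_norm_bounded hgeo fun n => ?_
      rw [Real.norm_eq_abs, abs_mul, abs_pow, abs_of_pos hx.1]
      calc |u n - q * ((n : ℝ) + r)| * x ^ n ≤ |u n - q * ((n : ℝ) + r)| * 1 :=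
            mul_le_mul_of_nonneg_left (pow_le_one₀ hx.1.le hx.2.le) (abs_nonneg _)
        _ ≤ C * (1 / 2) ^ n := by rw [mul_one]; exact h n
    have s4 : |∑' n, (u n - q * ((n : ℝ) + r)) * x ^ n| ≤ K := by
      rw [hK, ← Real.norm_eq_abs]
      refine tsum_of_norm_bounded hgeo.hasSum fun n => ?_
      rw [Real.norm_eq_abs, abs_mul, abs_pow, abs_of_pos hx.1]
      calc |u n - q * ((n : ℝ) + r)| * x ^ n ≤ |u n - q * ((n : ℝ) + r)| * 1 :=
            mul_le_mul_of_nonneg_left (pow_le_one₀ hx.1.le hx.2.le) (abs_nonneg _)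
        _ ≤ C * (1 / 2) ^ n := by rw [mul_one]; exact h n
    have s5 := ((s1.mul_left q).add (s2.mul_left (q * r))).add s3.hasSum
    have s6 : HasSum (fun n => u n * x ^ n) (q * (x / (1 - x) ^ 2) + q * r * (1 - x)⁻¹ +
        ∑' n, (u n - q * ((n : ℝ) + r)) * x ^ n) := by
      refine s5.congr_fun ?_ |> fun h => h
      intro n
      ring
    rw [s6.tsum_eq]
    have hx2 : (1 - x) ≠ 0 := by linarith [hx.2]
    have e : (1 - x) ^ 2 * (q * (x / (1 - x) ^ 2) + q * r * (1 - x)⁻¹ +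
        ∑' n, (u n - q * ((n : ℝ) + r)) * x ^ n) - q * (x + r * (1 - x)) =
        (1 - x) ^ 2 * ∑' n, (u n - q * ((n : ℝ) + r)) * x ^ n := by
      field_simp
      ring
    rw [e, abs_mul, abs_of_nonneg (by positivity : (0 : ℝ) ≤ (1 - x) ^ 2)]
    exact mul_le_mul_of_nonneg_left s4 (by positivity)
  have h0 : Tendsto (fun x : ℝ => (1 - x) ^ 2 * K) (𝓝[<] 1) (𝓝 0) := by
    have : Tendsto (fun x : ℝ => (1 - x) ^ 2 * K) (𝓝 1) (𝓝 ((1 - 1) ^ 2 * K)) :=
      (Continuous.tendsto (by fun_prop) 1)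
    rw [sub_self, zero_pow two_ne_zero, zero_mul] at this
    exact this.mono_left nhdsWithin_le_nhds
  have h1 : Tendsto (fun x : ℝ => q * (x + r * (1 - x))) (𝓝[<] 1) (𝓝 q) := by
    have : Tendsto (fun x : ℝ => q * (x + r * (1 - x))) (𝓝 1) (𝓝 (q * (1 + r * (1 - 1)))) :=
      (Continuous.tendsto (by fun_prop) 1)
    rw [sub_self, mul_zero, add_zero, mul_one] at this
    exact this.mono_left nhdsWithin_le_nhds
  have h2 := squeeze_zero_norm' (f := fun x : ℝ =>
    (1 - x) ^ 2 * ∑' n, u n * x ^ n - q * (x + r * (1 - x)))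
    (by simpa only [Real.norm_eq_abs] using hb) h0
  have h3 := h2.add h1
  simpa using h3

end Pool.Agent.K4H74.RSA
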