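import Pool.Agent.K4H74.RSA.Seq
import Pool.Agent.K4H74.RSA.Gen

/-!
# The limit variance of random sequential adsorption of `r`-mers
-/

namespace Pool.Agent.K4H74.RSA

open Finset Filter Topology Set MeasureTheory ProbabilityTheory

/-- `(1 - y)/1 + (1 - y^2)/2 + ... + (1 - y^(r-1))/(r-1)`. -/
noncomputable def SS (r : ℕ) (y : ℝ) : ℝ := ∑ k ∈ Finset.Ico 1 r, (1 - y ^ k) / k

/-- The asymptotic density of `r`-mers. -/
noncomputable def kap (r : ℕ) : ℝ := ∫ y in (0 : ℝ)..1, Real.exp (-2 * SS r y)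

/-- The auxiliary function of the variance formula. -/
noncomputable def NN (r : ℕ) (y : ℝ) : ℝ :=
  y ^ (r - 1) * (∫ t in (0 : ℝ)..y, Real.exp (2 * (SS r y - SS r t)))
    - kap r * (r - (r - 1) * y) + 1 - y

/-- The asymptotic variance of the number of `r`-mers per site. -/
noncomputable def vv (r : ℕ) : ℝ := 2 * ∫ y in (0 : ℝ)..1, Real.exp (-2 * SS r y) *
  ((1 - y) * (∑ n ∈ Finset.range r, (1 - kap r * (n + r)) ^ 2 * y ^ n) + (NN r y / (1 - y)) ^ 2)

lemma SS_eq (r : ℕ) (y : ℝ) :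
    SS r y = ∑ k ∈ Finset.Ico 1 r, (1 : ℝ) ^ k / k - ∑ k ∈ Finset.Ico 1 r, y ^ k / k := by
  rw [SS, ← Finset.sum_sub_distrib]
  refine Finset.sum_congr rfl fun k _ => ?_
  rw [one_pow]
  ring

lemma exp_SS (r : ℕ) (y : ℝ) : Real.exp (-2 * SS r y) = EE r y / EE r 1 := by
  rw [EE, EE, ← Real.exp_sub, SS_eq]
  congr 1
  ring

lemma exp_SS_sub (r : ℕ) (y t : ℝ) : Real.exp (2 * (SS r y - SS r t)) = EE r t / EE r y := by
  rw [EE, EE, ← Real.exp_sub, SS_eq, SS_eq]
  congr 1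
  ring

/-- Primitive of `EE`. -/
noncomputable def II (r : ℕ) (x : ℝ) : ℝ := ∫ y in (0 : ℝ)..x, EE r y

lemma II_cont (r : ℕ) : Continuous (II r) :=
  intervalIntegral.continuous_primitive (fun a b => (EE_cont r).intervalIntegrable a b) 0

lemma kap_eq (r : ℕ) : kap r = II r 1 / EE r 1 := by
  rw [kap, II]
  simp only [exp_SS]
  rw [intervalIntegral.integral_div]

lemma NN_eq (r : ℕ) (y : ℝ) :
    NN r y = y ^ (r - 1) * (II r y / EE r y) - kap r * (r - (r - 1) * y) + 1 - y := by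
  rw [NN, II]
  simp only [exp_SS_sub]
  rw [intervalIntegral.integral_div]

lemma NN_cont (r : ℕ) : Continuous (NN r) := by
  have : NN r = fun y => y ^ (r - 1) * (II r y / EE r y) - kap r * (r - (r - 1) * y) + 1 - y := by
    funext y; exact NN_eq r y
  rw [this]
  have h1 := II_cont r
  have h2 := EE_cont r
  have h3 : ∀ y, EE r y ≠ 0 := fun y => (EE_pos r y).ne'
  fun_prop (disch := exact fun y => h3 y)

lemma Gr_of_Sm {r : ℕ} {u : ℕ → ℝ} {q : ℝ} (hq : Sm (fun n => u n - q * ((n : ℝ) + r))) : Gr u := by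
  obtain ⟨C, hC, h⟩ := hq (1 / 2) (by norm_num) (by norm_num)
  refine ⟨C + |q| * (r + 1), by positivity, fun n => ?_⟩
  have h1 : |u n| ≤ |u n - q * ((n : ℝ) + r)| + |q| * ((n : ℝ) + r) := by
    have e : u n = (u n - q * ((n : ℝ) + r)) + q * ((n : ℝ) + r) := by ring
    calc |u n| = |(u n - q * ((n : ℝ) + r)) + q * ((n : ℝ) + r)| := by rw [← e]
      _ ≤ |u n - q * ((n : ℝ) + r)| + |q * ((n : ℝ) + r)| := abs_add_le _ _
      _ = |u n - q * ((n : ℝ) + r)| + |q| * ((n : ℝ) + r) := by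
          rw [abs_mul, abs_of_nonneg (by positivity : (0 : ℝ) ≤ (n : ℝ) + r)]
  have h2 : |u n - q * ((n : ℝ) + r)| ≤ C := by
    refine (h n).trans ?_
    calc C * (1 / 2 : ℝ) ^ n ≤ C * 1 :=
          mul_le_mul_of_nonneg_left (pow_le_one₀ (by norm_num) (by norm_num)) hC
      _ = C := mul_one C
  have hn : (0 : ℝ) ≤ n := Nat.cast_nonneg n
  have hr0 : (0 : ℝ) ≤ r := Nat.cast_nonneg r
  have h3 : (n : ℝ) + r ≤ (r + 1) * ((n : ℝ) + 1) ^ 2 := by nlinarith [mul_nonneg hn hr0]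
  have h4 : (1 : ℝ) ≤ ((n : ℝ) + 1) ^ 2 := by nlinarith
  calc |u n| ≤ C + |q| * ((n : ℝ) + r) := h1.trans (by linarith)
    _ ≤ C * ((n : ℝ) + 1) ^ 2 + |q| * ((r + 1) * ((n : ℝ) + 1) ^ 2) :=
        add_le_add (le_mul_of_one_le_right hC h4) (mul_le_mul_of_nonneg_left h3 (abs_nonneg q))
    _ = (C + |q| * (r + 1)) * ((n : ℝ) + 1) ^ 2 := by ring

/-- The mean, centred. -/
noncomputable def dd (r n : ℕ) : ℝ := al r n + 1 - kap r * ((n : ℝ) + r)

lemma ev_lt : ∀ᶠ x : ℝ in 𝓝[<] 1, 0 < x ∧ x < 1 := by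
  have h1 : ∀ᶠ x : ℝ in 𝓝[<] 1, x < 1 := eventually_mem_nhdsWithin
  have h2 : ∀ᶠ x : ℝ in 𝓝[<] 1, 0 < x :=
    eventually_nhdsWithin_of_eventually_nhds (lt_mem_nhds (by norm_num))
  exact h2.and h1

lemma mean_series {r : ℕ} (hr : 1 ≤ r) (hal : Gr (al r)) {x : ℝ} (hx : |x| < 1) :
    ∑' n, al r n * x ^ n = x ^ (r - 1) * (II r x / ((1 - x) ^ 2 * EE r x)) := by
  have hG : ∀ x : ℝ, |x| < 1 → HasSum (fun n : ℕ => ((n : ℝ) + 1) * x ^ n) ((1 - x)⁻¹ ^ 2) := by
    intro x hx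
    have hx' : ‖x‖ < 1 := by rwa [Real.norm_eq_abs]
    have h1 := (hasSum_coe_mul_geometric_of_norm_lt_one hx').add
      (hasSum_geometric_of_norm_lt_one hx')
    have hx1 : (1 - x) ≠ 0 := by
      have := (abs_lt.1 hx).2
      linarith
    have e : x / (1 - x) ^ 2 + (1 - x)⁻¹ = (1 - x)⁻¹ ^ 2 := by
      field_simp
      ring
    rw [e] at h1
    refine h1.congr_fun ?_ |> fun h => h
    intro n
    ring
  have hGc : ContinuousOn (fun x : ℝ => (1 - x)⁻¹ ^ 2) (Set.Ioo (-1) 1) := by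
    refine ContinuousOn.pow (ContinuousOn.inv₀ (by fun_prop) fun x hx => ?_) 2
    have := hx.2
    linarith
  have h := closed hr hal (g := fun n => (n : ℝ) + 1) (al_rec hr) hG hGc hx
  rw [h]
  have h0 : ∀ y : ℝ, ∑ n ∈ Finset.range r, al r n * y ^ n = 0 := by
    intro y
    refine Finset.sum_eq_zero fun n hn => ?_
    rw [al_small hr (Finset.mem_range.1 hn), zero_mul]
  rw [h0, zero_add]
  congr 2
  rw [II]
  refine intervalIntegral.integral_congr fun y hy => ?_
  have hy1 : (1 - y) ≠ 0 := by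
    rw [Set.mem_uIcc] at hy
    have := abs_lt.1 hx
    rcases hy with hy | hy <;> linarith [hy.1, hy.2]
  simp only [h0]
  field_simp
  ring

theorem mean_small {r : ℕ} (hr : 1 ≤ r) : Sm (dd r) ∧ Gr (al r) := by
  have hrec : ∀ k : ℕ, ((k : ℝ) + 1) * (al r (k + r) + 1) =
      2 * ∑ j ∈ Finset.range (k + 1), (al r j + 1) + (0 : ℝ) := by
    intro k
    rw [mul_add, al_rec hr k, Finset.sum_add_distrib]
    simp
    ring
  have hz : Sm (fun _ : ℕ => (0 : ℝ)) := fun ρ h0 h1 => ⟨0, le_rfl, fun n => by simp⟩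
  obtain ⟨q, hq⟩ := slope (u := fun n => al r n + 1) (g := fun _ => 0) hr hrec hz
  have hal : Gr (al r) := by
    obtain ⟨B, hB, h⟩ := Gr_of_Sm hq
    refine ⟨B + 1, by positivity, fun n => ?_⟩
    have h1 := h n
    have hn : (0 : ℝ) ≤ n := Nat.cast_nonneg n
    have h4 : (1 : ℝ) ≤ ((n : ℝ) + 1) ^ 2 := by nlinarith
    have h2 : |al r n| ≤ |al r n + 1| + 1 := by
      have e : al r n = (al r n + 1) + (-1) := by ring
      calc |al r n| = |(al r n + 1) + (-1)| := by rw [← e]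
        _ ≤ |al r n + 1| + |(-1 : ℝ)| := abs_add_le _ _
        _ = |al r n + 1| + 1 := by simp
    calc |al r n| ≤ B * ((n : ℝ) + 1) ^ 2 + 1 := by linarith
      _ ≤ (B + 1) * ((n : ℝ) + 1) ^ 2 := by linarith
  have hlim := abel hq
  have hlim2 : Tendsto (fun x : ℝ => (1 - x) ^ 2 * ∑' n, (al r n + 1) * x ^ n) (𝓝[<] 1)
      (𝓝 (kap r)) := by
    have hev : (fun x : ℝ => x ^ (r - 1) * (II r x / EE r x) + (1 - x)) =ᶠ[𝓝[<] 1]
        (fun x : ℝ => (1 - x) ^ 2 * ∑' n, (al r n + 1) * x ^ n) := by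
      refine ev_lt.mono fun x hx => ?_
      have hx' : |x| < 1 := by rw [abs_of_pos hx.1]; exact hx.2
      have hx1 : (1 - x) ≠ 0 := by linarith [hx.2]
      have e : ∑' n, (al r n + 1) * x ^ n = x ^ (r - 1) * (II r x / ((1 - x) ^ 2 * EE r x)) +
          (1 - x)⁻¹ := by
        rw [← mean_series hr hal hx', ← tsum_geometric_of_norm_lt_one (ξ := x)
          (by rwa [Real.norm_eq_abs]), ← Summable.tsum_add (hal.summable hx')
          (summable_geometric_of_norm_lt_one (by rwa [Real.norm_eq_abs]))]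
        refine tsum_congr fun n => ?_
        ring
      simp only
      rw [e]
      have := (EE_pos r x).ne'
      field_simp
    refine Tendsto.congr' hev ?_
    have hc : Continuous (fun x : ℝ => x ^ (r - 1) * (II r x / EE r x) + (1 - x)) := by
      have h1 := II_cont r
      have h2 := EE_cont r
      have h3 : ∀ y, EE r y ≠ 0 := fun y => (EE_pos r y).ne'
      fun_prop (disch := exact fun y => h3 y)
    have := hc.tendsto 1
    rw [one_pow, one_mul, sub_self, add_zero, ← kap_eq] at this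
    exact this.mono_left nhdsWithin_le_nhds
  have hqk : q = kap r := tendsto_nhds_unique hlim hlim2
  refine ⟨?_, hal⟩
  rw [hqk] at hq
  exact hq

lemma Sm.gr {g : ℕ → ℝ} (hg : Sm g) : Gr g := by
  refine Gr_of_Sm (r := 0) (q := 0) ?_
  refine hg.of_le fun n => ?_
  simp

lemma dd_series {r : ℕ} (hr : 1 ≤ r) {x : ℝ} (hx : |x| < 1) :
    ∑' n, dd r n * x ^ n = NN r x / (1 - x) ^ 2 := by
  obtain ⟨hd, hal⟩ := mean_small hr
  have hx' : ‖x‖ < 1 := by rwa [Real.norm_eq_abs]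
  have hx1 : (1 - x) ≠ 0 := by
    have := (abs_lt.1 hx).2
    linarith
  have s0 := (hal.summable hx).hasSum
  rw [mean_series hr hal hx] at s0
  have s1 := hasSum_coe_mul_geometric_of_norm_lt_one hx'
  have s2 := hasSum_geometric_of_norm_lt_one hx'
  have s := (s0.add (s2.mul_left (1 - kap r * r))).sub (s1.mul_left (kap r))
  have s' : HasSum (fun n => dd r n * x ^ n) (x ^ (r - 1) * (II r x / ((1 - x) ^ 2 * EE r x)) +
      (1 - kap r * r) * (1 - x)⁻¹ - kap r * (x / (1 - x) ^ 2)) := by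
    refine s.congr_fun ?_ |> fun h => h
    intro n
    simp only [dd]
    ring
  rw [s'.tsum_eq, NN_eq]
  have := (EE_pos r x).ne'
  field_simp
  ring

/-- Second moment, centred. -/
noncomputable def ee (r n : ℕ) : ℝ :=
  be r n - 2 * (kap r * ((n : ℝ) + r) - 1) * al r n + (kap r * ((n : ℝ) + r) - 1) ^ 2

lemma var_eq (r n : ℕ) : be r n - (al r n) ^ 2 = ee r n - (dd r n) ^ 2 := by
  rw [ee, dd]
  ring

lemma ee_rec {r : ℕ} (hr : 1 ≤ r) (k : ℕ) :
    ((k : ℝ) + 1) * ee r (k + r) = 2 * ∑ j ∈ Finset.range (k + 1), ee r j +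
      2 * ∑ j ∈ Finset.range (k + 1), dd r j * dd r (k - j) := by
  have ha := al_rec hr k
  have hb := be_rec hr k
  have ha' : ((k : ℝ) + 1) * al r (k + r) =
      ∑ j ∈ Finset.range (k + 1), (al r j + al r (k - j) + 1) := by
    rw [ha, Finset.sum_add_distrib, Finset.sum_add_distrib, sum_refl (fun j => al r j)]
    simp
    ring
  have hb' : ((k : ℝ) + 1) * be r (k + r) =
      ∑ j ∈ Finset.range (k + 1), (be r j + be r (k - j) + 2 * (al r j * al r (k - j)) +
        (2 * al r j + 2 * al r (k - j)) + 1) := by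
    rw [hb]
    simp only [Finset.sum_add_distrib, ← Finset.mul_sum]
    rw [sum_refl (fun j => be r j), sum_refl (fun j => al r j)]
    simp
    ring
  have hR : 2 * ∑ j ∈ Finset.range (k + 1), ee r j +
      2 * ∑ j ∈ Finset.range (k + 1), dd r j * dd r (k - j) =
      ∑ j ∈ Finset.range (k + 1), (ee r j + ee r (k - j) + 2 * (dd r j * dd r (k - j))) := by
    simp only [Finset.sum_add_distrib, ← Finset.mul_sum]
    rw [sum_refl (fun j => ee r j)]
    ring
  rw [hR]
  have hL : ((k : ℝ) + 1) * ee r (k + r) = ((k : ℝ) + 1) * be r (k + r) -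
      2 * (kap r * ((k : ℝ) + r + r) - 1) * (((k : ℝ) + 1) * al r (k + r)) +
      ∑ j ∈ Finset.range (k + 1), (kap r * ((k : ℝ) + r + r) - 1) ^ 2 := by
    rw [ee, Finset.sum_const, Finset.card_range, nsmul_eq_mul]
    push_cast
    ring
  rw [hL, ha', hb', Finset.mul_sum, ← Finset.sum_sub_distrib, ← Finset.sum_add_distrib]
  refine Finset.sum_congr rfl fun j hj => ?_
  have hjk : j ≤ k := by rw [Finset.mem_range] at hj; omega
  simp only [ee, dd]
  rw [Nat.cast_sub hjk]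
  ring

lemma conv_sum {r : ℕ} (hr : 1 ≤ r) {x : ℝ} (hx : |x| < 1) :
    HasSum (fun k => (2 * ∑ j ∈ Finset.range (k + 1), dd r j * dd r (k - j)) * x ^ k)
      (2 * (NN r x / (1 - x) ^ 2) ^ 2) := by
  obtain ⟨hd, hal⟩ := mean_small hr
  have hs := ((hd.gr).summable hx).norm
  have hp := tsum_mul_tsum_eq_tsum_sum_range_of_summable_norm hs hs
  have hps := (summable_norm_sum_mul_range_of_summable_norm hs hs).of_norm
  rw [dd_series hr hx] at hp
  have := (hps.hasSum).mul_left 2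
  rw [← hp, ← pow_two] at this
  refine this.congr_fun ?_ |> fun h => h
  intro k
  rw [mul_assoc, Finset.sum_mul]
  congr 1
  refine Finset.sum_congr rfl fun j hj => ?_
  have hjk : j + (k - j) = k := by rw [Finset.mem_range] at hj; omega
  have hx3 : x ^ k = x ^ j * x ^ (k - j) := by rw [← pow_add, hjk]
  rw [hx3]
  ring

/-- The integrand of the second moment. -/
noncomputable def FF (r : ℕ) (y : ℝ) : ℝ :=
  2 * (1 - y) * EE r y * (∑ n ∈ Finset.range r, ee r n * y ^ n) +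
    (1 - y) ^ 2 * EE r y * (2 * (NN r y / (1 - y) ^ 2) ^ 2)

lemma ee_series {r : ℕ} (hr : 1 ≤ r) (he : Gr (ee r)) {x : ℝ} (hx : |x| < 1) :
    ∑' n, ee r n * x ^ n = ∑ n ∈ Finset.range r, ee r n * x ^ n + x ^ (r - 1) *
      ((∫ y in (0 : ℝ)..x, FF r y) / ((1 - x) ^ 2 * EE r x)) := by
  have hGc : ContinuousOn (fun x : ℝ => 2 * (NN r x / (1 - x) ^ 2) ^ 2) (Set.Ioo (-1) 1) := by
    refine ContinuousOn.mul continuousOn_const (ContinuousOn.pow (ContinuousOn.div
      (NN_cont r).continuousOn (by fun_prop) fun x hx => ?_) 2)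
    have : (1 - x) ≠ 0 := by linarith [hx.2]
    exact pow_ne_zero 2 this
  exact closed hr he (ee_rec hr) (fun x hx => conv_sum hr hx) hGc hx

lemma ee_small_n {r n : ℕ} (hr : 1 ≤ r) (h : n < r) : ee r n = (1 - kap r * (n + r)) ^ 2 := by
  rw [ee, al_small hr h, be_small hr h]
  ring

lemma FF_eq {r : ℕ} (hr : 1 ≤ r) (y : ℝ) : FF r y / EE r 1 = 2 * (Real.exp (-2 * SS r y) *
    ((1 - y) * (∑ n ∈ Finset.range r, (1 - kap r * (n + r)) ^ 2 * y ^ n) +
      (NN r y / (1 - y)) ^ 2)) := by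
  have h1 : ∑ n ∈ Finset.range r, ee r n * y ^ n =
      ∑ n ∈ Finset.range r, (1 - kap r * (n + r)) ^ 2 * y ^ n := by
    refine Finset.sum_congr rfl fun n hn => ?_
    rw [ee_small_n hr (Finset.mem_range.1 hn)]
  rw [FF, h1, exp_SS]
  have h2 := (EE_pos r 1).ne'
  by_cases hy : y = 1
  · subst hy
    simp
  · have hy1 : (1 - y) ≠ 0 := sub_ne_zero.2 (Ne.symm hy)
    field_simp

lemma FF_int {r : ℕ} (hr : 1 ≤ r) : IntervalIntegrable (FF r) volume 0 1 := by
  obtain ⟨hd, hal⟩ := mean_small hr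
  obtain ⟨C, hC, hCb⟩ := hd (1 / 2) (by norm_num) (by norm_num)
  have hgeo : Summable (fun n : ℕ => C * (1 / 2 : ℝ) ^ n) :=
    (summable_geometric_of_lt_one (by norm_num) (by norm_num)).mul_left C
  have hbd : ∀ y : ℝ, 0 ≤ y → y < 1 → |NN r y / (1 - y) ^ 2| ≤ ∑' n : ℕ, C * (1 / 2 : ℝ) ^ n := by
    intro y h0 h1
    rw [← dd_series hr (by rw [abs_of_nonneg h0]; exact h1), ← Real.norm_eq_abs]
    refine tsum_of_norm_bounded hgeo.hasSum fun n => ?_
    rw [Real.norm_eq_abs, abs_mul, abs_pow, abs_of_nonneg h0]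
    calc |dd r n| * y ^ n ≤ |dd r n| * 1 :=
          mul_le_mul_of_nonneg_left (pow_le_one₀ h0 h1.le) (abs_nonneg _)
      _ ≤ C * (1 / 2) ^ n := by rw [mul_one]; exact hCb n
  set K : ℝ := ∑' n : ℕ, C * (1 / 2 : ℝ) ^ n with hK
  have hF1 : ContinuousOn (FF r) (Set.Ioo 0 1) := by
    have h1 := (EE_cont r).continuousOn (s := Set.Ioo (0 : ℝ) 1)
    have h2 := (NN_cont r).continuousOn (s := Set.Ioo (0 : ℝ) 1)
    refine ContinuousOn.add (ContinuousOn.mul (ContinuousOn.mul (by fun_prop) h1) (by fun_prop))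
      (ContinuousOn.mul (ContinuousOn.mul (by fun_prop) h1) (ContinuousOn.mul continuousOn_const
        (ContinuousOn.pow (ContinuousOn.div h2 (by fun_prop) fun x hx => ?_) 2)))
    have : (1 - x) ≠ 0 := by linarith [hx.2]
    exact pow_ne_zero 2 this
  obtain ⟨M1, hM1⟩ := (isCompact_Icc (a := (0 : ℝ)) (b := 1)).exists_bound_of_continuousOn
    (f := fun y => 2 * (1 - y) * EE r y * (∑ n ∈ Finset.range r, ee r n * y ^ n))
    (by
      have h1 := (EE_cont r).continuousOn (s := Set.Icc (0 : ℝ) 1)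
      exact ContinuousOn.mul (ContinuousOn.mul (by fun_prop) h1) (by fun_prop))
  obtain ⟨M2, hM2⟩ := (isCompact_Icc (a := (0 : ℝ)) (b := 1)).exists_bound_of_continuousOn
    (f := fun y => (1 - y) ^ 2 * EE r y)
    (by
      have h1 := (EE_cont r).continuousOn (s := Set.Icc (0 : ℝ) 1)
      exact ContinuousOn.mul (by fun_prop) h1)
  rw [intervalIntegrable_iff_integrableOn_Ioo_of_le zero_le_one]
  refine Integrable.of_bound (hF1.aestronglyMeasurable measurableSet_Ioo)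
    (M1 + M2 * (2 * K ^ 2)) ?_
  refine (ae_restrict_iff' measurableSet_Ioo).2 (Eventually.of_forall fun y hy => ?_)
  have hy' : y ∈ Set.Icc (0 : ℝ) 1 := ⟨hy.1.le, hy.2.le⟩
  refine (norm_add_le _ _).trans (add_le_add (hM1 y hy') ?_)
  rw [norm_mul]
  refine mul_le_mul (hM2 y hy') ?_ (norm_nonneg _) ((norm_nonneg _).trans (hM2 y hy'))
  rw [Real.norm_eq_abs, abs_mul, abs_of_pos (by norm_num : (0 : ℝ) < 2), abs_pow]
  refine mul_le_mul_of_nonneg_left ?_ (by norm_num)
  exact pow_le_pow_left₀ (abs_nonneg _) (hbd y hy.1.le hy.2) 2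

theorem var_small {r : ℕ} (hr : 1 ≤ r) : Sm (fun n => ee r n - vv r * ((n : ℝ) + r)) := by
  obtain ⟨hd, hal⟩ := mean_small hr
  obtain ⟨q, hq⟩ := slope (u := ee r)
    (g := fun k => 2 * ∑ j ∈ Finset.range (k + 1), dd r j * dd r (k - j)) hr (ee_rec hr)
    (hd.conv.mul_const 2)
  have hlim := abel hq
  have he := Gr_of_Sm hq
  have hlim2 : Tendsto (fun x : ℝ => (1 - x) ^ 2 * ∑' n, ee r n * x ^ n) (𝓝[<] 1)
      (𝓝 (vv r)) := by
    have hev : (fun x : ℝ => (1 - x) ^ 2 * (∑ n ∈ Finset.range r, ee r n * x ^ n) +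
        x ^ (r - 1) / EE r x * (∫ y in (0 : ℝ)..x, FF r y)) =ᶠ[𝓝[<] 1]
        (fun x : ℝ => (1 - x) ^ 2 * ∑' n, ee r n * x ^ n) := by
      refine ev_lt.mono fun x hx => ?_
      have hx' : |x| < 1 := by rw [abs_of_pos hx.1]; exact hx.2
      have hx1 : (1 - x) ≠ 0 := by linarith [hx.2]
      simp only
      rw [ee_series hr he hx']
      have := (EE_pos r x).ne'
      field_simp
    refine Tendsto.congr' hev ?_
    have h1 : Tendsto (fun x : ℝ => (1 - x) ^ 2 * (∑ n ∈ Finset.range r, ee r n * x ^ n))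
        (𝓝[<] 1) (𝓝 0) := by
      have hc : Continuous
          (fun x : ℝ => (1 - x) ^ 2 * (∑ n ∈ Finset.range r, ee r n * x ^ n)) := by fun_prop
      have := hc.tendsto 1
      rw [sub_self, zero_pow two_ne_zero, zero_mul] at this
      exact this.mono_left nhdsWithin_le_nhds
    have h2 : Tendsto (fun x : ℝ => x ^ (r - 1) / EE r x) (𝓝[<] 1) (𝓝 (1 / EE r 1)) := by
      have hc : Continuous (fun x : ℝ => x ^ (r - 1) / EE r x) :=
        Continuous.div (by fun_prop) (EE_cont r) fun y => (EE_pos r y).ne'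
      have := hc.tendsto 1
      rw [one_pow] at this
      exact this.mono_left nhdsWithin_le_nhds
    have h3 : Tendsto (fun x : ℝ => ∫ y in (0 : ℝ)..x, FF r y) (𝓝[<] 1)
        (𝓝 (∫ y in (0 : ℝ)..1, FF r y)) := by
      have hc := intervalIntegral.continuousOn_primitive_interval' (FF_int hr)
        (a := 0) (by simp)
      have h4 := (hc 1 (by simp)).tendsto
      refine h4.mono_left ?_
      rw [nhdsWithin_le_iff]
      refine ev_lt.mono fun x hx => ?_
      show x ∈ Set.uIcc (0 : ℝ) 1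
      rw [Set.uIcc_of_le zero_le_one]
      exact ⟨hx.1.le, hx.2.le⟩
    have h5 := h1.add (h2.mul h3)
    have e : 0 + 1 / EE r 1 * (∫ y in (0 : ℝ)..1, FF r y) = vv r := by
      rw [zero_add, vv, ← intervalIntegral.integral_const_mul,
        ← intervalIntegral.integral_const_mul]
      refine intervalIntegral.integral_congr fun y _ => ?_
      show 1 / EE r 1 * FF r y = 2 * (Real.exp (-2 * SS r y) *
        ((1 - y) * (∑ n ∈ Finset.range r, (1 - kap r * (n + r)) ^ 2 * y ^ n) +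
          (NN r y / (1 - y)) ^ 2))
      rw [← FF_eq hr y]
      ring
    rw [e] at h5
    exact h5
  have hqk : q = vv r := tendsto_nhds_unique hlim hlim2
  rw [hqk] at hq
  exact hq

end Pool.Agent.K4H74.RSA
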