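import Mathlib

/-!
# Random sequential adsorption of `r`-mers on a finite set of sites: the process and its first two moments
-/

namespace Pool.Agent.K4H74.RSA

open Finset MeasureTheory ProbabilityTheory
open scoped ENNReal

/-- The block of `r` consecutive sites starting at `i`. -/
def block (r i : ℕ) : Finset ℕ := Finset.Ico i (i + r)

/-- The starting sites of the blocks of `r` consecutive sites all of which are uncovered, `U` being
the set of uncovered sites. -/
def free (r : ℕ) (U : Finset ℕ) : Finset ℕ := U.filter (fun i => block r i ⊆ U)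

/-- The law of the number of `r`-mers placed in the first `m` placements, if `U` is the set of
uncovered sites at the start: each placement is uniform among the blocks which are still entirely
uncovered, and covers its block; nothing happens any more once there is no such block. -/
noncomputable def law (r : ℕ) : ℕ → Finset ℕ → PMF ℕ
  | 0, _ => PMF.pure 0
  | m + 1, U =>
      if h : (free r U).Nonempty then
        (PMF.uniformOfFinset (free r U) h).bind
          (fun i => (law r m (U \ block r i)).map (· + 1))
      else PMF.pure 0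

lemma map_succ_apply (p : PMF ℕ) (k : ℕ) : (p.map (· + 1)) (k + 1) = p k := by
  rw [PMF.map_apply, tsum_eq_single k]
  · simp
  · intro b hb
    rw [if_neg (by omega)]

lemma map_succ_zero (p : PMF ℕ) : (p.map (· + 1)) 0 = 0 := by
  rw [PMF.map_apply, ENNReal.tsum_eq_zero]
  intro a
  simp

lemma law_gt (r : ℕ) : ∀ (m : ℕ) (U : Finset ℕ) (k : ℕ), m < k → law r m U k = 0 := by
  intro m
  induction m with
  | zero =>
    intro U k hk
    simp only [law]
    rw [PMF.pure_apply, if_neg (by omega)]
  | succ m ih =>
    intro U k hk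
    simp only [law]
    split_ifs with h
    · rw [PMF.bind_apply]
      rw [ENNReal.tsum_eq_zero]
      intro i
      obtain ⟨j, rfl⟩ : ∃ j, k = j + 1 := ⟨k - 1, by omega⟩
      rw [map_succ_apply, ih _ _ (by omega), mul_zero]
    · rw [PMF.pure_apply, if_neg (by omega)]

/-- The expectation of `f` of the number of placements. -/
noncomputable def M (r m : ℕ) (U : Finset ℕ) (f : ℕ → ℝ) : ℝ :=
  ∑ k ∈ range (m + 1), (law r m U k).toReal * f k

lemma M_zero (r : ℕ) (U : Finset ℕ) (f : ℕ → ℝ) : M r 0 U f = f 0 := by
  simp [M, law]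

lemma M_jam (r m : ℕ) (U : Finset ℕ) (h : ¬ (free r U).Nonempty) (f : ℕ → ℝ) :
    M r m U f = f 0 := by
  cases m with
  | zero => exact M_zero r U f
  | succ m =>
    have hl : law r (m + 1) U = PMF.pure 0 := by simp only [law, dif_neg h]
    rw [M, hl, Finset.sum_eq_single 0]
    · simp
    · intro b _ hb
      rw [PMF.pure_apply, if_neg hb]
      simp
    · intro h0
      simp at h0

lemma M_succ (r m : ℕ) (U : Finset ℕ) (h : (free r U).Nonempty) (f : ℕ → ℝ) :
    M r (m + 1) U f =
      (∑ i ∈ free r U, M r m (U \ block r i) (fun k => f (k + 1))) / ((free r U).card : ℝ) := by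
  have hl : law r (m + 1) U = (PMF.uniformOfFinset (free r U) h).bind
          (fun i => (law r m (U \ block r i)).map (· + 1)) := by simp only [law, dif_pos h]
  have hb : ∀ k, (law r (m + 1) U k) =
      ∑ i ∈ free r U, ((free r U).card : ℝ≥0∞)⁻¹ * ((law r m (U \ block r i)).map (· + 1)) k := by
    intro k
    rw [hl, PMF.bind_apply]
    rw [tsum_eq_sum (s := free r U)]
    · refine Finset.sum_congr rfl fun i hi => ?_
      rw [PMF.uniformOfFinset_apply_of_mem h hi]
    · intro i hi
      rw [PMF.uniformOfFinset_apply_of_notMem h hi, zero_mul]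
  have hfin : ∀ i ∈ free r U, ∀ k, ((free r U).card : ℝ≥0∞)⁻¹ *
      ((law r m (U \ block r i)).map (· + 1)) k ≠ ∞ := by
    intro i _ k
    refine ENNReal.mul_ne_top ?_ (PMF.apply_ne_top _ _)
    rw [ENNReal.inv_ne_top]
    have := Finset.card_pos.2 h
    exact_mod_cast this.ne'
  have h0 : (law r (m + 1) U 0) = 0 := by
    rw [hb]
    refine Finset.sum_eq_zero fun i _ => ?_
    rw [map_succ_zero, mul_zero]
  have hk : ∀ k, (law r (m + 1) U (k + 1)).toReal =
      (∑ i ∈ free r U, (law r m (U \ block r i) k).toReal) / ((free r U).card : ℝ) := by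
    intro k
    rw [hb, ENNReal.toReal_sum (fun i hi => hfin i hi _), Finset.sum_div]
    refine Finset.sum_congr rfl fun i _ => ?_
    rw [map_succ_apply, ENNReal.toReal_mul, ENNReal.toReal_inv, ENNReal.toReal_natCast]
    ring
  rw [M, Finset.sum_range_succ']
  rw [h0]
  simp only [M, hk]
  simp only [ENNReal.toReal_zero, zero_mul, add_zero]
  rw [Finset.sum_comm' (s := free r U) (t := fun _ => range (m + 1)) (t' := range (m + 1))
    (s' := fun _ => free r U) (by intro x y; tauto), Finset.sum_div]
  refine Finset.sum_congr rfl fun k _ => ?_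
  rw [← Finset.sum_mul]
  ring

lemma M_add (r m : ℕ) (U : Finset ℕ) (f g : ℕ → ℝ) :
    M r m U (fun k => f k + g k) = M r m U f + M r m U g := by
  simp only [M, mul_add, Finset.sum_add_distrib]

lemma M_mul (r m : ℕ) (U : Finset ℕ) (c : ℝ) (f : ℕ → ℝ) :
    M r m U (fun k => c * f k) = c * M r m U f := by
  simp only [M, Finset.mul_sum]
  refine Finset.sum_congr rfl fun k _ => by ring

lemma M_const (r : ℕ) : ∀ (m : ℕ) (U : Finset ℕ) (c : ℝ), M r m U (fun _ => c) = c := by
  intro m
  induction m with
  | zero => intro U c; exact M_zero r U _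
  | succ m ih =>
    intro U c
    by_cases h : (free r U).Nonempty
    · rw [M_succ r m U h]
      simp only [ih, Finset.sum_const, nsmul_eq_mul]
      have : ((free r U).card : ℝ) ≠ 0 := by
        have := Finset.card_pos.2 h
        exact_mod_cast this.ne'
      field_simp
    · exact M_jam r _ U h _

lemma mem_free {r i : ℕ} {U : Finset ℕ} : i ∈ free r U ↔ i ∈ U ∧ block r i ⊆ U := by
  simp [free]

lemma card_sdiff_lt {r i : ℕ} (hr : 1 ≤ r) {U : Finset ℕ} (hi : i ∈ free r U) :
    (U \ block r i).card < U.card := by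
  refine Finset.card_lt_card ?_
  refine Finset.ssubset_iff_subset_ne.2 ⟨Finset.sdiff_subset, fun h => ?_⟩
  have h1 : i ∈ U \ block r i := by
    rw [h]
    exact (mem_free.1 hi).1
  rw [Finset.mem_sdiff] at h1
  exact h1.2 (by simp [block]; omega)

lemma M_fuel (r : ℕ) (hr : 1 ≤ r) : ∀ (m m' : ℕ) (U : Finset ℕ) (f : ℕ → ℝ),
    U.card ≤ m → U.card ≤ m' → M r m U f = M r m' U f := by
  intro m
  induction m with
  | zero =>
    intro m' U f h1 h2
    have hU : U = ∅ := Finset.card_eq_zero.1 (by omega)
    have : ¬ (free r U).Nonempty := by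
      rw [hU]
      simp [free]
    rw [M_jam r _ U this, M_jam r _ U this]
  | succ m ih =>
    intro m' U f h1 h2
    by_cases h : (free r U).Nonempty
    · cases m' with
      | zero =>
        exfalso
        obtain ⟨i, hi⟩ := h
        have hU : U = ∅ := Finset.card_eq_zero.1 (by omega)
        rw [hU] at hi
        simp [free] at hi
      | succ m' =>
        rw [M_succ r m U h, M_succ r m' U h]
        congr 1
        refine Finset.sum_congr rfl fun i hi => ?_
        have := card_sdiff_lt hr hi
        exact ih m' _ _ (by omega) (by omega)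
    · rw [M_jam r _ U h, M_jam r _ U h]

/-- Mean number of `r`-mers in the jammed configuration. -/
noncomputable def a (r : ℕ) (U : Finset ℕ) : ℝ := M r U.card U (fun k => (k : ℝ))

/-- Second moment of the number of `r`-mers in the jammed configuration. -/
noncomputable def b (r : ℕ) (U : Finset ℕ) : ℝ := M r U.card U (fun k => (k : ℝ) ^ 2)

lemma a_jam (r : ℕ) (U : Finset ℕ) (h : ¬ (free r U).Nonempty) : a r U = 0 := by
  rw [a, M_jam r _ U h]; simp

lemma b_jam (r : ℕ) (U : Finset ℕ) (h : ¬ (free r U).Nonempty) : b r U = 0 := by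
  rw [b, M_jam r _ U h]; simp

lemma card_eq_succ_of_free {r : ℕ} {U : Finset ℕ} (h : (free r U).Nonempty) :
    ∃ m, U.card = m + 1 := by
  obtain ⟨i, hi⟩ := h
  have : 0 < U.card := Finset.card_pos.2 ⟨i, (mem_free.1 hi).1⟩
  exact ⟨U.card - 1, by omega⟩

lemma a_sum (r : ℕ) (hr : 1 ≤ r) (U : Finset ℕ) :
    ((free r U).card : ℝ) * a r U = ∑ i ∈ free r U, (a r (U \ block r i) + 1) := by
  by_cases h : (free r U).Nonempty
  · obtain ⟨m, hm⟩ := card_eq_succ_of_free h
    have hc : ((free r U).card : ℝ) ≠ 0 := by
      have := Finset.card_pos.2 h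
      exact_mod_cast this.ne'
    rw [a, hm, M_succ r m U h]
    rw [mul_div_cancel₀ _ hc]
    refine Finset.sum_congr rfl fun i hi => ?_
    have hlt := card_sdiff_lt hr hi
    have h1 : M r m (U \ block r i) (fun k => ((k + 1 : ℕ) : ℝ)) =
        M r m (U \ block r i) (fun k => (k : ℝ)) + M r m (U \ block r i) (fun _ => 1) := by
      rw [← M_add]
      simp only [Nat.cast_add, Nat.cast_one]
    rw [h1, M_const, a, M_fuel r hr m (U \ block r i).card _ _ (by omega) le_rfl]
  · rw [a_jam r U h]
    rw [Finset.not_nonempty_iff_eq_empty] at h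
    simp [h]

lemma b_sum (r : ℕ) (hr : 1 ≤ r) (U : Finset ℕ) :
    ((free r U).card : ℝ) * b r U =
      ∑ i ∈ free r U, (b r (U \ block r i) + 2 * a r (U \ block r i) + 1) := by
  by_cases h : (free r U).Nonempty
  · obtain ⟨m, hm⟩ := card_eq_succ_of_free h
    have hc : ((free r U).card : ℝ) ≠ 0 := by
      have := Finset.card_pos.2 h
      exact_mod_cast this.ne'
    rw [b, hm, M_succ r m U h]
    rw [mul_div_cancel₀ _ hc]
    refine Finset.sum_congr rfl fun i hi => ?_
    have hlt := card_sdiff_lt hr hi
    have h1 : M r m (U \ block r i) (fun k => ((k + 1 : ℕ) : ℝ) ^ 2) =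
        M r m (U \ block r i) (fun k => (k : ℝ) ^ 2) +
        (2 * M r m (U \ block r i) (fun k => (k : ℝ)) + M r m (U \ block r i) (fun _ => 1)) := by
      rw [← M_mul, ← M_add, ← M_add]
      congr 1
      funext k
      push_cast
      ring
    rw [h1, M_const, a, b, M_fuel r hr m (U \ block r i).card _ (fun k => (k : ℝ) ^ 2)
      (by omega) le_rfl,
      M_fuel r hr m (U \ block r i).card _ (fun k => (k : ℝ)) (by omega) le_rfl]
    ring
  · rw [b_jam r U h]
    rw [Finset.not_nonempty_iff_eq_empty] at h
    simp [h]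

/-- Blocks cannot cross a covered site. -/
lemma free_union {r c : ℕ} {A B : Finset ℕ} (hA : ∀ x ∈ A, x < c) (hB : ∀ x ∈ B, c < x) :
    free r (A ∪ B) = free r A ∪ free r B := by
  have hc : c ∉ A ∪ B := by
    rw [Finset.mem_union]
    rintro (h | h)
    · exact lt_irrefl _ (hA c h)
    · exact lt_irrefl _ (hB c h)
  ext i
  simp only [mem_free, Finset.mem_union]
  constructor
  · rintro ⟨hi | hi, hb⟩
    · left
      refine ⟨hi, fun x hx => ?_⟩
      rcases Finset.mem_union.1 (hb hx) with h | h
      · exact h
      · exfalso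
        have h1 := hA i hi
        have h2 := hB x h
        simp only [block, Finset.mem_Ico] at hx
        exact hc (hb (by simp only [block, Finset.mem_Ico]; omega))
    · right
      refine ⟨hi, fun x hx => ?_⟩
      rcases Finset.mem_union.1 (hb hx) with h | h
      · exfalso
        have h1 := hB i hi
        have h2 := hA x h
        simp only [block, Finset.mem_Ico] at hx
        omega
      · exact h
  · rintro (⟨hi, hb⟩ | ⟨hi, hb⟩)
    · exact ⟨Or.inl hi, hb.trans Finset.subset_union_left⟩
    · exact ⟨Or.inr hi, hb.trans Finset.subset_union_right⟩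

lemma free_disjoint {r c : ℕ} {A B : Finset ℕ} (hA : ∀ x ∈ A, x < c) (hB : ∀ x ∈ B, c < x) :
    Disjoint (free r A) (free r B) := by
  rw [Finset.disjoint_left]
  intro i hi hj
  have := hA i (mem_free.1 hi).1
  have := hB i (mem_free.1 hj).1
  omega

lemma union_sdiff_left {r c i : ℕ} {A B : Finset ℕ} (hA : ∀ x ∈ A, x < c) (hB : ∀ x ∈ B, c < x)
    (hi : i ∈ free r A) : (A ∪ B) \ block r i = (A \ block r i) ∪ B := by
  ext x
  simp only [Finset.mem_sdiff, Finset.mem_union]
  constructor
  · rintro ⟨h | h, hx⟩
    · exact Or.inl ⟨h, hx⟩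
    · exact Or.inr h
  · rintro (⟨h, hx⟩ | h)
    · exact ⟨Or.inl h, hx⟩
    · refine ⟨Or.inr h, fun hx => ?_⟩
      have h1 := hA x ((mem_free.1 hi).2 hx)
      have h2 := hB x h
      omega

lemma union_sdiff_right {r c i : ℕ} {A B : Finset ℕ} (hA : ∀ x ∈ A, x < c) (hB : ∀ x ∈ B, c < x)
    (hi : i ∈ free r B) : (A ∪ B) \ block r i = A ∪ (B \ block r i) := by
  ext x
  simp only [Finset.mem_sdiff, Finset.mem_union]
  constructor
  · rintro ⟨h | h, hx⟩
    · exact Or.inl h
    · exact Or.inr ⟨h, hx⟩
  · rintro (h | ⟨h, hx⟩)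
    · refine ⟨Or.inl h, fun hx => ?_⟩
      have h1 := hB x ((mem_free.1 hi).2 hx)
      have h2 := hA x h
      omega
    · exact ⟨Or.inr h, hx⟩

lemma ab_union (r : ℕ) (hr : 1 ≤ r) (c : ℕ) : ∀ (n : ℕ) (A B : Finset ℕ),
    A.card + B.card ≤ n → (∀ x ∈ A, x < c) → (∀ x ∈ B, c < x) →
    a r (A ∪ B) = a r A + a r B ∧ b r (A ∪ B) = b r A + b r B + 2 * a r A * a r B := by
  intro n
  induction n with
  | zero =>
    intro A B h hA hB
    have h1 : A = ∅ := Finset.card_eq_zero.1 (by omega)
    have h2 : B = ∅ := Finset.card_eq_zero.1 (by omega)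
    have hf : ¬ (free r (∅ : Finset ℕ)).Nonempty := by simp [free]
    subst h1 h2
    simp only [Finset.empty_union]
    rw [a_jam r _ hf, b_jam r _ hf]
    simp
  | succ n ih =>
    intro A B h hA hB
    have hU := free_union (r := r) hA hB
    have hD := free_disjoint (r := r) hA hB
    have hcard : ((free r (A ∪ B)).card : ℝ) = (free r A).card + (free r B).card := by
      rw [hU, Finset.card_union_of_disjoint hD]
      push_cast
      ring
    by_cases hne : (free r (A ∪ B)).Nonempty
    · have hc : ((free r (A ∪ B)).card : ℝ) ≠ 0 := by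
        have := Finset.card_pos.2 hne
        exact_mod_cast this.ne'
      have hIA : ∀ i ∈ free r A,
          a r ((A \ block r i) ∪ B) = a r (A \ block r i) + a r B ∧
          b r ((A \ block r i) ∪ B) = b r (A \ block r i) + b r B
            + 2 * a r (A \ block r i) * a r B := by
        intro i hi
        have := card_sdiff_lt hr hi
        exact ih _ _ (by omega) (fun x hx => hA x (Finset.mem_sdiff.1 hx).1) hB
      have hIB : ∀ i ∈ free r B,
          a r (A ∪ (B \ block r i)) = a r A + a r (B \ block r i) ∧
          b r (A ∪ (B \ block r i)) = b r A + b r (B \ block r i)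
            + 2 * a r A * a r (B \ block r i) := by
        intro i hi
        have := card_sdiff_lt hr hi
        exact ih _ _ (by omega) hA (fun x hx => hB x (Finset.mem_sdiff.1 hx).1)
      have ea := a_sum r hr A
      have eb := a_sum r hr B
      have fa := b_sum r hr A
      have fb := b_sum r hr B
      have eU := a_sum r hr (A ∪ B)
      have fU := b_sum r hr (A ∪ B)
      rw [hU, Finset.sum_union hD, ← hU] at eU fU
      have s1 : ∑ i ∈ free r A, (a r ((A ∪ B) \ block r i) + 1) =
          ∑ i ∈ free r A, (a r (A \ block r i) + 1) + (free r A).card * a r B := by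
        rw [← nsmul_eq_mul, ← Finset.sum_const, ← Finset.sum_add_distrib]
        refine Finset.sum_congr rfl fun i hi => ?_
        rw [union_sdiff_left hA hB hi, (hIA i hi).1]
        ring
      have s2 : ∑ i ∈ free r B, (a r ((A ∪ B) \ block r i) + 1) =
          ∑ i ∈ free r B, (a r (B \ block r i) + 1) + (free r B).card * a r A := by
        rw [← nsmul_eq_mul, ← Finset.sum_const, ← Finset.sum_add_distrib]
        refine Finset.sum_congr rfl fun i hi => ?_
        rw [union_sdiff_right hA hB hi, (hIB i hi).1]
        ring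
      have t1 : ∑ i ∈ free r A, (b r ((A ∪ B) \ block r i) + 2 * a r ((A ∪ B) \ block r i) + 1) =
          ∑ i ∈ free r A, (b r (A \ block r i) + 2 * a r (A \ block r i) + 1)
          + (2 * a r B) * (∑ i ∈ free r A, (a r (A \ block r i) + 1))
          + (free r A).card * b r B := by
        rw [Finset.mul_sum, ← nsmul_eq_mul, ← Finset.sum_const, ← Finset.sum_add_distrib,
          ← Finset.sum_add_distrib]
        refine Finset.sum_congr rfl fun i hi => ?_
        rw [union_sdiff_left hA hB hi, (hIA i hi).1, (hIA i hi).2]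
        ring
      have t2 : ∑ i ∈ free r B, (b r ((A ∪ B) \ block r i) + 2 * a r ((A ∪ B) \ block r i) + 1) =
          ∑ i ∈ free r B, (b r (B \ block r i) + 2 * a r (B \ block r i) + 1)
          + (2 * a r A) * (∑ i ∈ free r B, (a r (B \ block r i) + 1))
          + (free r B).card * b r A := by
        rw [Finset.mul_sum, ← nsmul_eq_mul, ← Finset.sum_const, ← Finset.sum_add_distrib,
          ← Finset.sum_add_distrib]
        refine Finset.sum_congr rfl fun i hi => ?_
        rw [union_sdiff_right hA hB hi, (hIB i hi).1, (hIB i hi).2]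
        ring
      rw [s1, s2, ← ea, ← eb] at eU
      rw [t1, t2, ← fa, ← fb, ← ea, ← eb] at fU
      constructor
      · refine mul_left_cancel₀ hc ?_
        rw [eU, hcard]
        ring
      · refine mul_left_cancel₀ hc ?_
        rw [fU, hcard]
        ring
    · have h1 : ¬ (free r A).Nonempty := by
        intro h1
        exact hne (by rw [hU]; exact h1.mono Finset.subset_union_left)
      have h2 : ¬ (free r B).Nonempty := by
        intro h2
        exact hne (by rw [hU]; exact h2.mono Finset.subset_union_right)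
      rw [a_jam r _ hne, b_jam r _ hne, a_jam r _ h1, a_jam r _ h2, b_jam r _ h1, b_jam r _ h2]
      simp

end Pool.Agent.K4H74.RSA
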