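import Pool.Agent.K4H74.RSA.Proc

/-!
# Random sequential adsorption on intervals: recursions for the mean and the second moment
-/

namespace Pool.Agent.K4H74.RSA

open Finset MeasureTheory ProbabilityTheory
open scoped ENNReal

lemma free_Ico {r : ℕ} (hr : 1 ≤ r) (s k : ℕ) :
    free r (Finset.Ico s (s + (k + r))) = Finset.Ico s (s + (k + 1)) := by
  ext i
  simp only [mem_free, Finset.mem_Ico, block]
  constructor
  · rintro ⟨h1, h2⟩
    have h3 : i + (r - 1) ∈ Finset.Ico i (i + r) := by
      rw [Finset.mem_Ico]; omega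
    have := Finset.mem_Ico.1 (h2 h3)
    omega
  · rintro ⟨h1, h2⟩
    refine ⟨by omega, fun x hx => ?_⟩
    rw [Finset.mem_Ico] at hx ⊢
    omega

lemma free_small {r n : ℕ} (hr : 1 ≤ r) (s : ℕ) (h : n < r) :
    ¬ (free r (Finset.Ico s (s + n))).Nonempty := by
  rintro ⟨i, hi⟩
  rw [mem_free, Finset.mem_Ico] at hi
  have h3 : i + (r - 1) ∈ block r i := by
    rw [block, Finset.mem_Ico]; omega
  have := Finset.mem_Ico.1 (hi.2 h3)
  omega

lemma Ico_sdiff {r : ℕ} (s k j : ℕ) (hj : j ≤ k) :
    Finset.Ico s (s + (k + r)) \ block r (s + j) =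
      Finset.Ico s (s + j) ∪ Finset.Ico (s + j + r) ((s + j + r) + (k - j)) := by
  ext x
  simp only [Finset.mem_sdiff, Finset.mem_union, Finset.mem_Ico, block]
  omega

lemma ab_split {r : ℕ} (hr : 1 ≤ r) (s k j : ℕ) (hj : j ≤ k) :
    a r (Finset.Ico s (s + (k + r)) \ block r (s + j)) =
      a r (Finset.Ico s (s + j)) + a r (Finset.Ico (s + j + r) ((s + j + r) + (k - j))) ∧
    b r (Finset.Ico s (s + (k + r)) \ block r (s + j)) =
      b r (Finset.Ico s (s + j)) + b r (Finset.Ico (s + j + r) ((s + j + r) + (k - j))) +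
      2 * a r (Finset.Ico s (s + j)) * a r (Finset.Ico (s + j + r) ((s + j + r) + (k - j))) := by
  rw [Ico_sdiff s k j hj]
  refine ab_union r hr (s + j) _ _ _ le_rfl ?_ ?_
  · intro x hx
    exact (Finset.mem_Ico.1 hx).2
  · intro x hx
    have := (Finset.mem_Ico.1 hx).1
    omega

lemma a_rec {r : ℕ} (hr : 1 ≤ r) (s k : ℕ) :
    ((k : ℝ) + 1) * a r (Finset.Ico s (s + (k + r))) =
      ∑ j ∈ range (k + 1), (a r (Finset.Ico s (s + j)) +
        a r (Finset.Ico (s + j + r) ((s + j + r) + (k - j))) + 1) := by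
  have h := a_sum r hr (Finset.Ico s (s + (k + r)))
  rw [free_Ico hr, Nat.card_Ico, Finset.sum_Ico_eq_sum_range] at h
  have e : s + (k + 1) - s = k + 1 := by omega
  rw [e] at h
  push_cast at h
  rw [h]
  refine Finset.sum_congr rfl fun j hj => ?_
  rw [(ab_split hr s k j (by rw [Finset.mem_range] at hj; omega)).1]

lemma b_rec {r : ℕ} (hr : 1 ≤ r) (s k : ℕ) :
    ((k : ℝ) + 1) * b r (Finset.Ico s (s + (k + r))) =
      ∑ j ∈ range (k + 1), (b r (Finset.Ico s (s + j)) +
        b r (Finset.Ico (s + j + r) ((s + j + r) + (k - j))) +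
        2 * a r (Finset.Ico s (s + j)) * a r (Finset.Ico (s + j + r) ((s + j + r) + (k - j))) +
        2 * (a r (Finset.Ico s (s + j)) +
          a r (Finset.Ico (s + j + r) ((s + j + r) + (k - j)))) + 1) := by
  have h := b_sum r hr (Finset.Ico s (s + (k + r)))
  rw [free_Ico hr, Nat.card_Ico, Finset.sum_Ico_eq_sum_range] at h
  have e : s + (k + 1) - s = k + 1 := by omega
  rw [e] at h
  push_cast at h
  rw [h]
  refine Finset.sum_congr rfl fun j hj => ?_
  rw [(ab_split hr s k j (by rw [Finset.mem_range] at hj; omega)).1,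
    (ab_split hr s k j (by rw [Finset.mem_range] at hj; omega)).2]

/-- Mean of the jamming count of `n` sites. -/
noncomputable def al (r n : ℕ) : ℝ := a r (range n)

/-- Second moment of the jamming count of `n` sites. -/
noncomputable def be (r n : ℕ) : ℝ := b r (range n)

lemma ab_Ico {r : ℕ} (hr : 1 ≤ r) : ∀ (n s : ℕ), a r (Finset.Ico s (s + n)) = al r n ∧
    b r (Finset.Ico s (s + n)) = be r n := by
  intro n
  induction n using Nat.strong_induction_on with
  | _ n ih =>
    have hz : ∀ m, al r m = a r (Finset.Ico 0 (0 + m)) ∧ be r m = b r (Finset.Ico 0 (0 + m)) := by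
      intro m
      rw [al, be, Nat.zero_add, Finset.range_eq_Ico]
      exact ⟨rfl, rfl⟩
    intro s
    by_cases hn : n < r
    · rw [(hz n).1, (hz n).2, a_jam r _ (free_small hr s hn), b_jam r _ (free_small hr s hn),
        a_jam r _ (free_small hr 0 hn), b_jam r _ (free_small hr 0 hn)]
      exact ⟨rfl, rfl⟩
    · obtain ⟨k, rfl⟩ : ∃ k, n = k + r := ⟨n - r, by omega⟩
      have hk : ((k : ℝ) + 1) ≠ 0 := by positivity
      have hs : ∀ t : ℕ, ∀ j ∈ range (k + 1), a r (Finset.Ico t (t + j)) = al r j ∧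
          b r (Finset.Ico t (t + j)) = be r j ∧
          a r (Finset.Ico (t + j + r) ((t + j + r) + (k - j))) = al r (k - j) ∧
          b r (Finset.Ico (t + j + r) ((t + j + r) + (k - j))) = be r (k - j) := by
        intro t j hj
        rw [Finset.mem_range] at hj
        exact ⟨(ih j (by omega) t).1, (ih j (by omega) t).2, (ih (k - j) (by omega) _).1,
          (ih (k - j) (by omega) _).2⟩
      constructor
      · rw [(hz _).1]
        refine mul_left_cancel₀ hk ?_
        rw [a_rec hr, a_rec hr]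
        refine Finset.sum_congr rfl fun j hj => ?_
        rw [(hs s j hj).1, (hs s j hj).2.2.1, (hs 0 j hj).1, (hs 0 j hj).2.2.1]
      · rw [(hz _).2]
        refine mul_left_cancel₀ hk ?_
        rw [b_rec hr, b_rec hr]
        refine Finset.sum_congr rfl fun j hj => ?_
        rw [(hs s j hj).1, (hs s j hj).2.2.1, (hs 0 j hj).1, (hs 0 j hj).2.2.1,
          (hs s j hj).2.1, (hs s j hj).2.2.2, (hs 0 j hj).2.1, (hs 0 j hj).2.2.2]

lemma al_small {r n : ℕ} (hr : 1 ≤ r) (h : n < r) : al r n = 0 := by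
  rw [← (ab_Ico hr n 0).1]
  exact a_jam r _ (free_small hr 0 h)

lemma be_small {r n : ℕ} (hr : 1 ≤ r) (h : n < r) : be r n = 0 := by
  rw [← (ab_Ico hr n 0).2]
  exact b_jam r _ (free_small hr 0 h)

lemma sum_refl (f : ℕ → ℝ) (k : ℕ) : ∑ j ∈ range (k + 1), f (k - j) = ∑ j ∈ range (k + 1), f j := by
  have := Finset.sum_range_reflect f (k + 1)
  rw [← this]
  refine Finset.sum_congr rfl fun j _ => ?_
  congr 1

lemma al_rec {r : ℕ} (hr : 1 ≤ r) (k : ℕ) :
    ((k : ℝ) + 1) * al r (k + r) = 2 * ∑ j ∈ range (k + 1), al r j + (k + 1) := by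
  have h := a_rec hr 0 k
  rw [(ab_Ico hr (k + r) 0).1] at h
  rw [h]
  have : ∀ j ∈ range (k + 1), (a r (Finset.Ico 0 (0 + j)) +
        a r (Finset.Ico (0 + j + r) ((0 + j + r) + (k - j))) + 1) =
        al r j + al r (k - j) + 1 := by
    intro j _
    rw [(ab_Ico hr j 0).1, (ab_Ico hr (k - j) _).1]
  rw [Finset.sum_congr rfl this, Finset.sum_add_distrib, Finset.sum_add_distrib,
    sum_refl (fun j => al r j)]
  simp
  ring

lemma be_rec {r : ℕ} (hr : 1 ≤ r) (k : ℕ) :
    ((k : ℝ) + 1) * be r (k + r) = 2 * ∑ j ∈ range (k + 1), be r j +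
      2 * ∑ j ∈ range (k + 1), al r j * al r (k - j) + 4 * ∑ j ∈ range (k + 1), al r j
      + (k + 1) := by
  have h := b_rec hr 0 k
  rw [(ab_Ico hr (k + r) 0).2] at h
  rw [h]
  have : ∀ j ∈ range (k + 1), (b r (Finset.Ico 0 (0 + j)) +
        b r (Finset.Ico (0 + j + r) ((0 + j + r) + (k - j))) +
        2 * a r (Finset.Ico 0 (0 + j)) * a r (Finset.Ico (0 + j + r) ((0 + j + r) + (k - j))) +
        2 * (a r (Finset.Ico 0 (0 + j)) +
          a r (Finset.Ico (0 + j + r) ((0 + j + r) + (k - j)))) + 1) =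
        be r j + be r (k - j) + 2 * (al r j * al r (k - j)) + (2 * al r j + 2 * al r (k - j))
          + 1 := by
    intro j _
    rw [(ab_Ico hr j 0).1, (ab_Ico hr (k - j) _).1, (ab_Ico hr j 0).2, (ab_Ico hr (k - j) _).2]
    ring
  rw [Finset.sum_congr rfl this]
  simp only [Finset.sum_add_distrib, ← Finset.mul_sum]
  rw [sum_refl (fun j => be r j), sum_refl (fun j => al r j)]
  simp
  ring

/-! ## Link with the mean and variance of Mathlib -/

lemma integral_law (r m : ℕ) (U : Finset ℕ) (f : ℕ → ℝ) :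
    Integrable f (law r m U).toMeasure ∧ MemLp f 2 (law r m U).toMeasure ∧
    ∫ k, f k ∂(law r m U).toMeasure = M r m U f := by
  have hae : ∀ᵐ k ∂(law r m U).toMeasure, ‖f k‖ ≤ ∑ j ∈ range (m + 1), ‖f j‖ := by
    rw [ae_iff, PMF.toMeasure_apply_eq_zero_iff _ (MeasurableSet.of_discrete)]
    rw [Set.disjoint_left]
    intro k hk hk'
    rw [PMF.mem_support_iff] at hk
    refine hk (law_gt r m U k ?_)
    by_contra hcon
    refine hk' ?_
    exact Finset.single_le_sum (f := fun j => ‖f j‖) (fun j _ => norm_nonneg _)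
      (Finset.mem_range.2 (by omega))
  have h1 : Integrable f (law r m U).toMeasure :=
    Integrable.of_bound (Measurable.of_discrete.aestronglyMeasurable) _ hae
  refine ⟨h1, MemLp.of_bound (Measurable.of_discrete.aestronglyMeasurable) _ hae, ?_⟩
  rw [PMF.integral_eq_tsum _ _ h1, M]
  rw [tsum_eq_sum (s := range (m + 1))]
  · simp
  · intro k hk
    rw [law_gt r m U k (by rw [Finset.mem_range] at hk; omega)]
    simp

/-- The law of the number `C_n` of `r`-mers in the jammed configuration of the sites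
`0, ..., n - 1`. -/
noncomputable def jam (r n : ℕ) : Measure ℕ := (law r n (range n)).toMeasure

lemma mean_jam {r : ℕ} (n : ℕ) : ∫ k, (k : ℝ) ∂(jam r n) = al r n := by
  rw [jam, (integral_law r n (range n) _).2.2, al, a, Finset.card_range]

lemma var_jam {r : ℕ} (n : ℕ) : Var[fun k : ℕ => (k : ℝ); jam r n] = be r n - (al r n) ^ 2 := by
  have : IsProbabilityMeasure (jam r n) := by
    rw [jam]; infer_instance
  rw [variance_eq_sub (by rw [jam]; exact (integral_law r n (range n) _).2.1)]
  rw [mean_jam]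
  congr 1
  have h : (∫ k, ((fun k : ℕ => (k : ℝ)) ^ 2) k ∂(jam r n)) = be r n := by
    rw [jam, (integral_law r n (range n) _).2.2, be, b, Finset.card_range]
    rfl
  exact h

end Pool.Agent.K4H74.RSA
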