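import Mathlib

/-!
# Sequences with `(k + 1) u_{k+r} = 2 (u_0 + ... + u_k) + g_k`: linear growth up to an error smaller than
every geometric sequence
-/

namespace Pool.Agent.K4H74.RSA

open Finset Filter Topology

/-- `g` is smaller than every geometric sequence. -/
def Sm (g : ℕ → ℝ) : Prop := ∀ ρ : ℝ, 0 < ρ → ρ < 1 → ∃ C, 0 ≤ C ∧ ∀ n, |g n| ≤ C * ρ ^ n

lemma succ_le_two_pow (n : ℕ) : (n : ℝ) + 1 ≤ 2 ^ n := by
  have : n + 1 ≤ 2 ^ n := Nat.lt_two_pow_self
  exact_mod_cast this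

lemma lin_bound {ρ : ℝ} (hρ : 0 < ρ) (n : ℕ) : ((n : ℝ) + 1) * (ρ / 2) ^ n ≤ ρ ^ n := by
  rw [div_pow, mul_div_assoc', div_le_iff₀ (by positivity)]
  rw [mul_comm (ρ ^ n) _]
  exact mul_le_mul_of_nonneg_right (succ_le_two_pow n) (by positivity)

lemma Sm.lin {g : ℕ → ℝ} (hg : Sm g) : Sm (fun n => ((n : ℝ) + 1) * g n) := by
  intro ρ h0 h1
  obtain ⟨C, hC, h⟩ := hg (ρ / 2) (by linarith) (by linarith)
  refine ⟨C, hC, fun n => ?_⟩
  rw [abs_mul, abs_of_nonneg (by positivity : (0 : ℝ) ≤ (n : ℝ) + 1)]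
  calc ((n : ℝ) + 1) * |g n| ≤ ((n : ℝ) + 1) * (C * (ρ / 2) ^ n) := by
        exact mul_le_mul_of_nonneg_left (h n) (by positivity)
    _ = C * (((n : ℝ) + 1) * (ρ / 2) ^ n) := by ring
    _ ≤ C * ρ ^ n := mul_le_mul_of_nonneg_left (lin_bound h0 n) hC

lemma Sm.conv {g : ℕ → ℝ} (hg : Sm g) :
    Sm (fun n => ∑ j ∈ range (n + 1), g j * g (n - j)) := by
  intro ρ h0 h1
  obtain ⟨C, hC, h⟩ := hg (ρ / 2) (by linarith) (by linarith)
  refine ⟨C ^ 2, by positivity, fun n => ?_⟩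
  calc |∑ j ∈ range (n + 1), g j * g (n - j)| ≤ ∑ j ∈ range (n + 1), |g j * g (n - j)| :=
        Finset.abs_sum_le_sum_abs _ _
    _ ≤ ∑ j ∈ range (n + 1), C ^ 2 * (ρ / 2) ^ n := by
        refine Finset.sum_le_sum fun j hj => ?_
        rw [abs_mul]
        have hj' : j + (n - j) = n := by rw [Finset.mem_range] at hj; omega
        calc |g j| * |g (n - j)| ≤ (C * (ρ / 2) ^ j) * (C * (ρ / 2) ^ (n - j)) :=
              mul_le_mul (h j) (h (n - j)) (abs_nonneg _) (by positivity)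
          _ = C ^ 2 * (ρ / 2) ^ (j + (n - j)) := by rw [pow_add]; ring
          _ = C ^ 2 * (ρ / 2) ^ n := by rw [hj']
    _ = C ^ 2 * (((n : ℝ) + 1) * (ρ / 2) ^ n) := by
        rw [Finset.sum_const, Finset.card_range, nsmul_eq_mul]; push_cast; ring
    _ ≤ C ^ 2 * ρ ^ n := mul_le_mul_of_nonneg_left (lin_bound h0 n) (by positivity)

lemma Sm.mul_const {g : ℕ → ℝ} (hg : Sm g) (c : ℝ) : Sm (fun n => c * g n) := by
  intro ρ h0 h1
  obtain ⟨C, hC, h⟩ := hg ρ h0 h1
  refine ⟨|c| * C, by positivity, fun n => ?_⟩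
  rw [abs_mul, mul_assoc]
  exact mul_le_mul_of_nonneg_left (h n) (abs_nonneg _)

lemma Sm.of_le {f g : ℕ → ℝ} (hg : Sm g) (h : ∀ n, |f n| ≤ |g n|) : Sm f := by
  intro ρ h0 h1
  obtain ⟨C, hC, hh⟩ := hg ρ h0 h1
  exact ⟨C, hC, fun n => (h n).trans (hh n)⟩

section
variable {r : ℕ} {u g : ℕ → ℝ}

/-- Normalised sequence. -/
noncomputable def nq (r : ℕ) (u : ℕ → ℝ) (n : ℕ) : ℝ := u n / ((n : ℝ) + r)

lemma diff_rec (hr : 1 ≤ r)
    (hrec : ∀ k : ℕ, ((k : ℝ) + 1) * u (k + r) = 2 * ∑ j ∈ range (k + 1), u j + g k) (k : ℕ) :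
    ((k : ℝ) + 2) * (k + 2 * r + 1) * (nq r u (k + r + 1) - nq r u (k + r)) =
      2 * ((k : ℝ) + 1 + r) * (nq r u (k + 1) - nq r u (k + r)) + (g (k + 1) - g k) := by
  have h1 := hrec k
  have h2 := hrec (k + 1)
  rw [Finset.sum_range_succ _ (k + 1)] at h2
  have e : k + 1 + r = k + r + 1 := by omega
  rw [e] at h2
  have hrp : (1 : ℝ) ≤ (r : ℝ) := by exact_mod_cast hr
  have u1 : u (k + r) = ((k : ℝ) + 2 * r) * nq r u (k + r) := by
    rw [nq]; push_cast
    have : ((k : ℝ) + r + r) ≠ 0 := by positivity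
    field_simp
    ring
  have u2 : u (k + r + 1) = ((k : ℝ) + 2 * r + 1) * nq r u (k + r + 1) := by
    rw [nq]; push_cast
    have : ((k : ℝ) + r + 1 + r) ≠ 0 := by positivity
    field_simp
    ring
  have u3 : u (k + 1) = ((k : ℝ) + 1 + r) * nq r u (k + 1) := by
    rw [nq]; push_cast
    have : ((k : ℝ) + 1 + r) ≠ 0 := by positivity
    field_simp
  push_cast at h2
  rw [u1] at h1
  rw [u2, u3] at h2
  linear_combination h2 - h1

lemma tele (f : ℕ → ℝ) (m : ℕ) : ∀ n : ℕ, f (m + n) - f m = ∑ i ∈ range n, (f (m + i + 1) - f (m + i)) := by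
  intro n
  induction n with
  | zero => simp
  | succ n ih =>
    rw [Finset.sum_range_succ, ← ih]
    rw [show m + (n + 1) = m + n + 1 by omega]
    ring

lemma delta_small (hr : 1 ≤ r)
    (hrec : ∀ k : ℕ, ((k : ℝ) + 1) * u (k + r) = 2 * ∑ j ∈ range (k + 1), u j + g k)
    (hg : Sm g) : Sm (fun n => nq r u (n + 1) - nq r u n) := by
  intro ρ h0 h1
  obtain ⟨Cg, hCg, hgb⟩ := hg ρ h0 h1
  set δ : ℕ → ℝ := fun n => nq r u (n + 1) - nq r u n with hδ
  have hrp : (1 : ℝ) ≤ (r : ℝ) := by exact_mod_cast hr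
  have key : ∀ k : ℕ, |δ (k + r)| ≤ 2 / ((k : ℝ) + 2) * ∑ i ∈ range (r - 1), |δ (k + 1 + i)|
      + 2 * Cg * ρ ^ k := by
    intro k
    have hd := diff_rec hr hrec k
    have ht : nq r u (k + 1) - nq r u (k + r) = - ∑ i ∈ range (r - 1), δ (k + 1 + i) := by
      have := tele (nq r u) (k + 1) (r - 1)
      rw [show k + 1 + (r - 1) = k + r by omega] at this
      rw [hδ]
      simp only
      rw [← this]
      ring
    rw [ht] at hd
    have hpos : (0 : ℝ) < ((k : ℝ) + 2) * (k + 2 * r + 1) := by positivity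
    have hdk : δ (k + r) = (2 * ((k : ℝ) + 1 + r) * (- ∑ i ∈ range (r - 1), δ (k + 1 + i)) +
        (g (k + 1) - g k)) / (((k : ℝ) + 2) * (k + 2 * r + 1)) := by
      rw [eq_div_iff hpos.ne', ← hd]
      simp only [hδ]
      ring
    rw [hdk, add_div]
    refine (abs_add_le _ _).trans (add_le_add ?_ ?_)
    · rw [abs_div, abs_mul, abs_neg, abs_of_pos hpos,
        abs_of_nonneg (by positivity : (0 : ℝ) ≤ 2 * ((k : ℝ) + 1 + r))]
      rw [div_le_iff₀ hpos]
      have hS : |∑ i ∈ range (r - 1), δ (k + 1 + i)| ≤ ∑ i ∈ range (r - 1), |δ (k + 1 + i)| :=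
        Finset.abs_sum_le_sum_abs _ _
      have e : 2 / ((k : ℝ) + 2) * (∑ i ∈ range (r - 1), |δ (k + 1 + i)|) *
          (((k : ℝ) + 2) * (k + 2 * r + 1)) =
          2 * (k + 2 * r + 1) * (∑ i ∈ range (r - 1), |δ (k + 1 + i)|) := by
        have : ((k : ℝ) + 2) ≠ 0 := by positivity
        field_simp
      rw [e]
      refine mul_le_mul ?_ hS (abs_nonneg _) (by positivity)
      linarith
    · rw [abs_div, abs_of_pos hpos, div_le_iff₀ hpos]
      have a1 := hgb (k + 1)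
      have a2 := hgb k
      have hmono : ρ ^ (k + 1) ≤ ρ ^ k := pow_le_pow_of_le_one h0.le h1.le (by omega)
      have a4 : |g (k + 1) - g k| ≤ 2 * Cg * ρ ^ k := by
        calc |g (k + 1) - g k| ≤ |g (k + 1)| + |g k| := abs_sub _ _
          _ ≤ Cg * ρ ^ k + Cg * ρ ^ k :=
              add_le_add (a1.trans (mul_le_mul_of_nonneg_left hmono hCg)) a2
          _ = 2 * Cg * ρ ^ k := by ring
      refine a4.trans ?_
      have : (1 : ℝ) ≤ ((k : ℝ) + 2) * (k + 2 * r + 1) := by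
        nlinarith [Nat.cast_nonneg (α := ℝ) k]
      exact le_mul_of_one_le_right (by positivity) this
  obtain ⟨K, hK⟩ := exists_nat_ge (4 * (r : ℝ) / ρ ^ r)
  set C : ℝ := 4 * Cg / ρ ^ r + ∑ n ∈ range (K + r), |δ n| / ρ ^ n with hC
  have hC1 : 4 * Cg / ρ ^ r ≤ C := by
    have : 0 ≤ ∑ n ∈ range (K + r), |δ n| / ρ ^ n :=
      Finset.sum_nonneg fun n _ => by positivity
    linarith
  have hC2 : ∀ n < K + r, |δ n| / ρ ^ n ≤ C := by
    intro n hn
    have h3 : |δ n| / ρ ^ n ≤ ∑ n ∈ range (K + r), |δ n| / ρ ^ n :=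
      Finset.single_le_sum (f := fun n => |δ n| / ρ ^ n) (fun n _ => by positivity)
        (Finset.mem_range.2 hn)
    have : 0 ≤ 4 * Cg / ρ ^ r := by positivity
    linarith
  have hC0 : 0 ≤ C := le_trans (by positivity) hC1
  refine ⟨C, hC0, fun n => ?_⟩
  induction n using Nat.strong_induction_on with
  | _ n ih =>
    by_cases hn : n < K + r
    · have := hC2 n hn
      rwa [div_le_iff₀ (by positivity)] at this
    · obtain ⟨k, rfl⟩ : ∃ k, n = k + r := ⟨n - r, by omega⟩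
      have hkK : K ≤ k := by omega
      refine (key k).trans ?_
      have hsum : ∑ i ∈ range (r - 1), |δ (k + 1 + i)| ≤ r * (C * ρ ^ k) := by
        calc ∑ i ∈ range (r - 1), |δ (k + 1 + i)| ≤ ∑ _i ∈ range (r - 1), C * ρ ^ k := by
              refine Finset.sum_le_sum fun i hi => ?_
              rw [Finset.mem_range] at hi
              refine (ih (k + 1 + i) (by omega)).trans ?_
              exact mul_le_mul_of_nonneg_left
                (pow_le_pow_of_le_one h0.le h1.le (by omega)) hC0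
          _ = ((r - 1 : ℕ) : ℝ) * (C * ρ ^ k) := by
              rw [Finset.sum_const, Finset.card_range, nsmul_eq_mul]
          _ ≤ r * (C * ρ ^ k) := by
              refine mul_le_mul_of_nonneg_right ?_ (by positivity)
              exact_mod_cast Nat.sub_le r 1
      have hk2 : 4 * (r : ℝ) / ρ ^ r ≤ (k : ℝ) + 2 := by
        have : (K : ℝ) ≤ k := by exact_mod_cast hkK
        linarith
      have h5 : 2 / ((k : ℝ) + 2) * (r * (C * ρ ^ k)) ≤ C / 2 * ρ ^ (k + r) := by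
        rw [div_mul_eq_mul_div, div_le_iff₀ (by positivity)]
        rw [div_le_iff₀ (by positivity)] at hk2
        have h6 : C * ρ ^ k * (4 * (r : ℝ)) ≤ C * ρ ^ k * (((k : ℝ) + 2) * ρ ^ r) :=
          mul_le_mul_of_nonneg_left hk2 (by positivity)
        rw [pow_add]
        nlinarith
      have h6 : 2 * Cg * ρ ^ k ≤ C / 2 * ρ ^ (k + r) := by
        rw [div_le_iff₀ (by positivity)] at hC1
        rw [pow_add]
        have h7 : ρ ^ k * (4 * Cg) ≤ ρ ^ k * (C * ρ ^ r) :=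
          mul_le_mul_of_nonneg_left hC1 (by positivity)
        nlinarith
      have h8 : 2 / ((k : ℝ) + 2) * ∑ i ∈ range (r - 1), |δ (k + 1 + i)| ≤
          2 / ((k : ℝ) + 2) * (r * (C * ρ ^ k)) :=
        mul_le_mul_of_nonneg_left hsum (by positivity)
      linarith

theorem slope (hr : 1 ≤ r)
    (hrec : ∀ k : ℕ, ((k : ℝ) + 1) * u (k + r) = 2 * ∑ j ∈ range (k + 1), u j + g k)
    (hg : Sm g) : ∃ q : ℝ, Sm (fun n => u n - q * ((n : ℝ) + r)) := by
  have hδ := delta_small hr hrec hg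
  have hrp : (1 : ℝ) ≤ (r : ℝ) := by exact_mod_cast hr
  obtain ⟨C, hC, h⟩ := hδ (1 / 2) (by norm_num) (by norm_num)
  have hd : ∀ n, dist (nq r u n) (nq r u (n + 1)) ≤ C * (1 / 2) ^ n := by
    intro n
    rw [dist_comm, Real.dist_eq]
    exact h n
  obtain ⟨q, hq⟩ := cauchySeq_tendsto_of_complete
    (cauchySeq_of_le_geometric (1 / 2) C (by norm_num) hd)
  refine ⟨q, ?_⟩
  have hs : Sm (fun n => nq r u n - q) := by
    intro ρ h0 h1
    obtain ⟨C', hC', h'⟩ := hδ ρ h0 h1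
    refine ⟨C' / (1 - ρ), div_nonneg hC' (by linarith), fun n => ?_⟩
    have hd' : ∀ n, dist (nq r u n) (nq r u (n + 1)) ≤ C' * ρ ^ n := by
      intro n
      rw [dist_comm, Real.dist_eq]
      exact h' n
    have := dist_le_of_le_geometric_of_tendsto ρ C' h1 hd' hq n
    rw [Real.dist_eq] at this
    refine this.trans (le_of_eq ?_)
    ring
  refine Sm.of_le ((hs.lin).mul_const r) fun n => ?_
  have e : u n - q * ((n : ℝ) + r) = ((n : ℝ) + r) * (nq r u n - q) := by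
    rw [nq]
    have : ((n : ℝ) + r) ≠ 0 := by positivity
    field_simp
  rw [e, ← mul_assoc, abs_mul, abs_mul ((r : ℝ) * ((n : ℝ) + 1))]
  refine mul_le_mul_of_nonneg_right ?_ (abs_nonneg _)
  rw [abs_of_nonneg (by positivity), abs_of_nonneg (by positivity)]
  nlinarith [Nat.cast_nonneg (α := ℝ) n]

end

end Pool.Agent.K4H74.RSA
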